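import Pool.Agent.EVD.Assembly

/-! # Incremental Voronoi diagrams of points in convex position

The machine model (`Val`, `Prog`, `prim`, `Run`) is in `Pool/Agent/EVD/Model.lean`: a pure pointer
machine with real arithmetic, a restriction of the real RAM. -/

set_option autoImplicit false

namespace Pool.Agent.Results.MP_41328f_lc.ConvexIncrementalVoronoi

open Pool.Agent.EVD

/-- The program `p`, run on its own on the input `x`, stops with the output `y` after exactly `n`
steps (and it has no other output and no other running time). -/
def Exec (p : Prog) (x y : Val) (n : ℕ) : Prop :=
  Run Prog.nil p x y n ∧ ∀ (y' : Val) (n' : ℕ), Run Prog.nil p x y' n' → y' = y ∧ n' = n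

/-- The points `p 0, …, p (k - 1)` are in convex position: none of them lies in the convex hull of
the other ones (in particular they are distinct). -/
def ConvexPosition (p : ℕ → ℝ × ℝ) (k : ℕ) : Prop :=
  ∀ i < k, p i ∉ convexHull ℝ {x | ∃ j < k, j ≠ i ∧ p j = x}

/-- The square of the Euclidean distance of two points of the plane. -/
noncomputable def dist2 (q s : ℝ × ℝ) : ℝ := (q.1 - s.1) ^ 2 + (q.2 - s.2) ^ 2

/-- A point of the plane as an input or an output of a program: the pair of its coordinates. -/
def code (x : ℝ × ℝ) : Val := Val.pair (Val.num x.1) (Val.num x.2)

/-- **Point location in the Voronoi diagram of a set of points in convex position, under insertions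
in any order, with worst-case query time `O(log n)` and polylogarithmic amortized insertion time.**

There are a program `ins` for the insertions, a program `qry` for the point-location queries and a
constant `C` such that for every sequence of insertions `p 0, …, p (m - 1)` for which the current
set stays in convex position the following holds. Starting with the empty data structure
`D 0 = nil`, the insertion of `p k` takes `t k` steps and transforms the data structure `D k` into
`D (k + 1)`; the first `n` insertions take together at most `C n (log n + 1) ^ C` steps, for every
`n ≤ m`; and a query for an arbitrary point `q` of the plane, made when the current set consists of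
the `k ≥ 1` points `p 0, …, p (k - 1)`, takes at most `C (log k + 1)` steps and returns a point of
the current set nearest to `q` (and it does not change the data structure). -/
theorem result : ∃ (ins qry : Prog) (C : ℕ), ∀ (m : ℕ) (p : ℕ → ℝ × ℝ),
    (∀ k ≤ m, ConvexPosition p k) →
    ∃ (D : ℕ → Val) (t : ℕ → ℕ), D 0 = Val.nil ∧
      (∀ k < m, Exec ins (Val.pair (D k) (code (p k))) (D (k + 1)) (t k)) ∧
      (∀ n ≤ m, ∑ k ∈ Finset.range n, t k ≤ C * n * (Nat.log 2 n + 1) ^ C) ∧
      ∀ k ≤ m, 1 ≤ k → ∀ q : ℝ × ℝ, ∃ i < k, (∀ j < k, dist2 q (p i) ≤ dist2 q (p j)) ∧
        ∃ s ≤ C * (Nat.log 2 k + 1), Exec qry (Val.pair (D k) (code q)) (code (p i)) s :=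
  statement

end Pool.Agent.Results.MP_41328f_lc.ConvexIncrementalVoronoi
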